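import Pool.Agent.Lib.FOLFP.Input

/-!
# Pfaffian orientations of graphs which may have loops and parallel edges
-/

set_option autoImplicit false

namespace Pool.Agent.Lib.MP_0c183c_M

open Pool.Agent.Lib.FOLFP (Sym)

/-- A finite undirected graph with the vertices `0, …, n - 1` and the edges `0, …, m - 1`; the
edge `i` joins the two vertices in `ends i`.  Loops and parallel edges are allowed. -/
structure Graph where
  n : ℕ
  m : ℕ
  ends : Fin m → Sym2 (Fin n)

namespace Graph

variable (G : Graph)

/-- An orientation of `G`: every edge is directed away from one of its ends, its tail. -/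
structure Orientation where
  tail : Fin G.m → Fin G.n
  tail_mem : ∀ i, tail i ∈ G.ends i

/-- A cycle of length `k`, with a direction of traversing it: distinct vertices
`v 0, …, v (k - 1)` and distinct edges `e 0, …, e (k - 1)`, where `e i` joins `v i` to the next
vertex `v (i + 1)` (indices modulo `k`). -/
structure Cycle (k : ℕ) where
  v : ZMod k → Fin G.n
  e : ZMod k → Fin G.m
  v_inj : Function.Injective v
  e_inj : Function.Injective e
  joins : ∀ i, G.ends (e i) = s(v i, v (i + 1))

variable {G}

/-- The cycle `C` is central: `G - V(C)` has a perfect matching, that is, there is a set `M` of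
edges of `G`, all with two different ends, none of which is in `C`, such that every vertex not in
`C` is an end of exactly one of them. -/
def Cycle.Central {k : ℕ} (C : G.Cycle k) : Prop :=
  ∃ M : Set (Fin G.m), (∀ i ∈ M, ¬ (G.ends i).IsDiag ∧ ∀ u ∈ G.ends i, u ∉ Set.range C.v) ∧
    ∀ u ∉ Set.range C.v, ∃! i, i ∈ M ∧ u ∈ G.ends i

/-- The edges of `C` oriented in agreement with the direction of traversing `C`. -/
def Orientation.agreeing (D : G.Orientation) {k : ℕ} (C : G.Cycle k) : Set (ZMod k) :=
  {i | D.tail (C.e i) = C.v i}

/-- The orientation `D` is Pfaffian: for every central even cycle and each direction of traversing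
it, the number of its edges oriented in agreement with this direction is odd. -/
def Orientation.IsPfaffian (D : G.Orientation) : Prop :=
  ∀ (k : ℕ) (C : G.Cycle k), Even k → C.Central → Odd (D.agreeing C).ncard

variable (G)

/-- The graph `G` is Pfaffian: it has a Pfaffian orientation. -/
def IsPfaffian : Prop := ∃ D : G.Orientation, D.IsPfaffian

open Classical in
/-- The input word: a row of `n` zeros and, for every edge, the row of length `n` in which the
ends of the edge are marked by one (the incidence matrix); every row is followed by a
separator. -/
noncomputable def encode : List Sym :=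
  (List.replicate G.n Sym.zero ++ [Sym.sep]) ++
    (List.ofFn fun i : Fin G.m =>
      (List.ofFn fun j : Fin G.n => if j ∈ G.ends i then Sym.one else Sym.zero) ++ [Sym.sep]).flatten

end Graph

end Pool.Agent.Lib.MP_0c183c_M
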