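import Pool.Agent.Lib.MP_0c183c_M.Machine

/-! # The input word determines the graph -/

set_option autoImplicit false

namespace Pool.Agent.Lib.MP_0c183c_M

open Pool.Agent.Lib.FOLFP (Sym)

/-- The input word determines the graph. -/
theorem Graph.encode_injective : Function.Injective Graph.encode := by
  intro G H h
  have hn : G.n = H.n := by rw [← nV_enc G, ← nV_enc H, h]
  have hm : G.m = H.m := by
    have := (nOf_enc G).symm.trans ((congrArg _ h).trans (nOf_enc H))
    omega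
  have he : ∀ (e : ℕ) (h1 : e < G.m) (h2 : e < H.m) (j : ℕ) (h3 : j < G.n) (h4 : j < H.n),
      (⟨j, h3⟩ : Fin G.n) ∈ G.ends ⟨e, h1⟩ ↔ (⟨j, h4⟩ : Fin H.n) ∈ H.ends ⟨e, h2⟩ := by
    intro e h1 h2 j h3 h4
    have a := entry G (e + 1) j h3
    have b := entry H (e + 1) j h4
    rw [h] at a
    have hidx : (e + 1) * (G.n + 1) + j = (e + 1) * (H.n + 1) + j := by rw [hn]
    have c := a.symm.trans ((iff_of_eq (by rw [hidx])).trans b)
    constructor
    · intro h5
      obtain ⟨e', h6, h7⟩ := c.1 ⟨⟨e, h1⟩, rfl, h5⟩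
      have : e' = ⟨e, h2⟩ := Fin.ext (by simp only; omega)
      rwa [this] at h7
    · intro h5
      obtain ⟨e', h6, h7⟩ := c.2 ⟨⟨e, h2⟩, rfl, h5⟩
      have : e' = ⟨e, h1⟩ := Fin.ext (by simp only; omega)
      rwa [this] at h7
  obtain ⟨n, m, ends⟩ := G
  obtain ⟨n', m', ends'⟩ := H
  simp only at hn hm
  subst hn hm
  congr 1
  funext i
  apply Sym2.ext
  intro j
  exact he i i.2 i.2 j j.2 j.2

end Pool.Agent.Lib.MP_0c183c_M
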