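import Pool.Agent.Lib.MP_0c183c_M.SimpleDef
import Pool.Agent.Lib.PolyTree.GraphInput

/-!
# From the incidence matrix to the adjacency matrix of the underlying simple graph
-/

set_option autoImplicit false

namespace Pool.Agent.Lib.MP_0c183c_M

open Pool.Agent.Lib.FOLFP (Sym)
open Pool.Agent.Lib.PolyTree Turing
open Pool.Agent.Lib.PolyTM (PolyFun Outputs)

/-- The number of vertices, read from the incidence matrix. -/
def nV (w : List Sym) : ℕ := w.length / nOf w - 1

/-- Some row has ones at the places `i` and `j`. -/
def hasE (w : List Sym) (i j : ℕ) : Bool :=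
  (List.range (nOf w)).any fun k =>
    decide (w[k * (nV w + 1) + i]? = some Sym.one) && decide (w[k * (nV w + 1) + j]? = some Sym.one)

/-- The adjacency matrix of the underlying simple graph. -/
def conv (w : List Sym) : List Sym :=
  (List.range (nV w)).flatMap fun i =>
    ((List.range (nV w)).map fun j =>
      if (!decide (i = j) && hasE w i j) = true then Sym.one else Sym.zero) ++ [Sym.sep]

theorem PF.nV {α : Type} [TEnc α] {w : α → List Sym} (hw : PF w) : PF fun a => nV (w a) := by
  unfold MP_0c183c_M.nV
  fun_prop

theorem PF.hasE {α : Type} [TEnc α] {w : α → List Sym} {i j : α → ℕ} (hw : PF w) (hi : PF i)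
    (hj : PF j) : PF fun a => hasE (w a) (i a) (j a) := by
  unfold MP_0c183c_M.hasE MP_0c183c_M.nV
  fun_prop

theorem PF.conv {α : Type} [TEnc α] {w : α → List Sym} (hw : PF w) : PF fun a => conv (w a) := by
  unfold MP_0c183c_M.conv MP_0c183c_M.hasE MP_0c183c_M.nV
  fun_prop

open Classical in
/-- The row of an edge. -/
noncomputable def rowE (G : Graph) (i : Fin G.m) : List Sym :=
  (List.ofFn fun j : Fin G.n => if j ∈ G.ends i then Sym.one else Sym.zero) ++ [Sym.sep]

/-- All rows. -/
noncomputable def rowsE (G : Graph) : List (List Sym) :=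
  (List.replicate G.n Sym.zero ++ [Sym.sep]) :: List.ofFn (rowE G)

theorem encode_eq (G : Graph) : G.encode = (rowsE G).flatten := rfl

theorem rowsE_length (G : Graph) : (rowsE G).length = G.m + 1 := by simp [rowsE]

theorem rowsE_row (G : Graph) : ∀ r ∈ rowsE G, r.length = G.n + 1 := by
  intro r hr
  rw [rowsE, List.mem_cons] at hr
  rcases hr with rfl | hr
  · simp
  · rw [List.mem_ofFn] at hr
    obtain ⟨i, rfl⟩ := hr
    simp [rowE]

theorem filter_sep (G : Graph) : ∀ r ∈ rowsE G,
    (r.filter fun a => decide (a = Sym.sep)) = [Sym.sep] := by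
  classical
  intro r hr
  rw [rowsE, List.mem_cons] at hr
  rcases hr with rfl | hr
  · rw [List.filter_append]
    have : (List.replicate G.n Sym.zero).filter (fun a => decide (a = Sym.sep)) = [] := by
      rw [List.filter_eq_nil_iff]
      intro a ha
      rw [(List.mem_replicate.1 ha).2]
      simp
    rw [this]
    simp
  · rw [List.mem_ofFn] at hr
    obtain ⟨i, rfl⟩ := hr
    rw [rowE, List.filter_append]
    have : (List.ofFn fun j : Fin G.n => if j ∈ G.ends i then Sym.one else Sym.zero).filter
        (fun a => decide (a = Sym.sep)) = [] := by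
      rw [List.filter_eq_nil_iff]
      intro a ha
      rw [List.mem_ofFn] at ha
      obtain ⟨j, rfl⟩ := ha
      split <;> simp
    rw [this]
    simp

theorem nOf_enc (G : Graph) : nOf G.encode = G.m + 1 := by
  rw [nOf, encode_eq, List.filter_flatten]
  have h : (rowsE G).map (List.filter fun a => decide (a = Sym.sep)) =
      (rowsE G).map fun _ => [Sym.sep] := by
    apply List.map_congr_left
    intro r hr
    exact filter_sep G r hr
  rw [h, List.length_flatten, List.map_map]
  have h2 : (List.length ∘ fun _ : List Sym => [Sym.sep]) = fun _ => 1 := rfl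
  rw [h2]
  simp [rowsE_length]

theorem length_enc (G : Graph) : G.encode.length = (G.m + 1) * (G.n + 1) := by
  rw [encode_eq, List.length_flatten]
  have h : (rowsE G).map List.length = (rowsE G).map fun _ => G.n + 1 :=
    List.map_congr_left fun r hr => rowsE_row G r hr
  rw [h]
  simp [rowsE_length]

theorem nV_enc (G : Graph) : nV G.encode = G.n := by
  rw [nV, nOf_enc, length_enc, Nat.mul_div_cancel_left _ (Nat.succ_pos _)]
  rfl

theorem entry (G : Graph) (k i : ℕ) (hi : i < G.n) :
    G.encode[k * (G.n + 1) + i]? = some Sym.one ↔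
      ∃ e : Fin G.m, k = e + 1 ∧ (⟨i, hi⟩ : Fin G.n) ∈ G.ends e := by
  classical
  rw [encode_eq, flatten_getElem? (G.n + 1) _ (rowsE_row G) k i (by omega), rowsE]
  cases k with
  | zero =>
    rw [List.getElem?_cons_zero, Option.bind_some, List.getElem?_append_left (by simpa using hi),
      List.getElem?_replicate]
    constructor
    · intro h
      rw [if_pos hi] at h
      simp at h
    · rintro ⟨e, h, -⟩
      omega
  | succ k =>
    rw [List.getElem?_cons_succ, List.getElem?_ofFn]
    by_cases hk : k < G.m
    · rw [dif_pos hk, Option.bind_some, rowE, List.getElem?_append_left (by simpa using hi),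
        List.getElem?_ofFn, dif_pos hi]
      constructor
      · intro h
        refine ⟨⟨k, hk⟩, rfl, ?_⟩
        by_contra hn
        rw [if_neg hn] at h
        simp at h
      · rintro ⟨e, h1, h2⟩
        have he : e = ⟨k, hk⟩ := by
          apply Fin.ext
          simp only
          omega
        subst he
        rw [if_pos h2]
    · rw [dif_neg hk]
      constructor
      · intro h; simp at h
      · rintro ⟨e, h1, -⟩
        have := e.2
        omega

theorem hasE_enc (G : Graph) (i j : Fin G.n) (hij : i ≠ j) :
    hasE G.encode i j = true ↔ ∃ e, G.ends e = s(i, j) := by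
  rw [hasE, nV_enc, nOf_enc, List.any_eq_true]
  constructor
  · rintro ⟨k, hk, h⟩
    rw [Bool.and_eq_true, decide_eq_true_eq, decide_eq_true_eq] at h
    obtain ⟨h1, h2⟩ := h
    rw [entry G k i i.2] at h1
    rw [entry G k j j.2] at h2
    obtain ⟨e, he, h1⟩ := h1
    obtain ⟨e', he', h2⟩ := h2
    have : e = e' := by
      apply Fin.ext
      omega
    subst this
    exact ⟨e, (Sym2.mem_and_mem_iff hij).1 ⟨h1, h2⟩⟩
  · rintro ⟨e, he⟩
    refine ⟨e + 1, by rw [List.mem_range]; have := e.2; omega, ?_⟩
    rw [Bool.and_eq_true, decide_eq_true_eq, decide_eq_true_eq]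
    refine ⟨(entry G _ i i.2).2 ⟨e, rfl, ?_⟩, (entry G _ j j.2).2 ⟨e, rfl, ?_⟩⟩
    · rw [he]; exact Sym2.mem_mk_left _ _
    · rw [he]; exact Sym2.mem_mk_right _ _

theorem map_range_eq {β : Type} (n : ℕ) (f : ℕ → β) :
    (List.range n).map f = List.ofFn fun i : Fin n => f i := by
  apply List.ext_getElem
  · simp
  · intro k h1 h2
    simp

theorem conv_enc (G : Graph) :
    conv G.encode = Pool.Agent.Lib.FOLFP.Graph.encode ⟨G.n, G.simple⟩ := by
  classical
  rw [conv, nV_enc, Pool.Agent.Lib.FOLFP.Graph.encode, List.flatMap, map_range_eq]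
  congr 1
  congr 1
  funext i
  rw [map_range_eq]
  congr 1
  congr 1
  funext j
  by_cases hij : i = j
  · subst hij
    have h1 : ¬ G.simple.Adj i i := G.simple.loopless.irrefl i
    rw [if_neg h1]
    simp
  · have hval : ¬ (i : ℕ) = (j : ℕ) := fun h => hij (Fin.ext h)
    have hh := hasE_enc G i j hij
    by_cases hE : ∃ e, G.ends e = s(i, j)
    · have h1 : G.simple.Adj i j := ⟨hij, hE⟩
      rw [if_pos h1, hh.2 hE]
      simp [hval]
    · have h1 : ¬ G.simple.Adj i j := fun h => hE h.2
      have h2 : hasE G.encode i j = false := by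
        rw [← Bool.not_eq_true]
        exact fun h => hE (hh.1 h)
      rw [if_neg h1, h2]
      simp

open Classical in
/-- If a decision problem on simple graphs is decided by a polynomial-time function of the adjacency
matrix, then the decision problem for the underlying simple graph of a graph with loops and parallel
edges is decided by a Turing machine in time polynomial in the length of the incidence matrix. -/
theorem machine_of_simple (D : Pool.Agent.Lib.FOLFP.Graph → Prop) (f : List Sym → Bool) (hf : PF f)
    (h : ∀ I : Pool.Agent.Lib.FOLFP.Graph, f I.encode = true ↔ D I) :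
    ∃ M : TM2ComputableInPolyTime Graph.encode (fun b : Bool => [b])
        (fun G : Graph => decide (D ⟨G.n, G.simple⟩)),
      ∀ k, Finite (M.tm.Γ k) := by
  have hg : PF fun w : List Sym => f (conv w) := PF.comp hf (PF.conv PF.id')
  have h1 := PF.polyFun_bool (fun a : Sym => decide (a = .one)) (fun a => decide (a = .sep))
    (fun a => rfl) hg
  obtain ⟨M, p, hfin, h2⟩ := h1
  refine ⟨⟨M, p, fun G => Classical.choice ?_⟩, hfin⟩
  have h3 := h2 G.encode
  have h4 : f (conv G.encode) = decide (D ⟨G.n, G.simple⟩) := by
    rw [conv_enc, Bool.eq_iff_iff, h]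
    simp
  have h5 : (fun w : List Sym => [f (conv w)]) G.encode = [decide (D ⟨G.n, G.simple⟩)] :=
    congrArg (fun b => [b]) h4
  rw [h5] at h3
  exact h3

end Pool.Agent.Lib.MP_0c183c_M
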