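import Pool.Agent.Lib.MP_0c183c_M.SimpleDef
import Pool.Agent.Lib.MP_0c183c_co.Defs

set_option autoImplicit false

/-!
# A Pfaffian orientation of a multigraph gives one of the underlying simple graph
-/

namespace Pool.Agent.Lib.MP_0c183c_M

open SimpleGraph

private theorem countP_eq_card {α : Type*} (p : α → Prop) [DecidablePred p] (l : List α) :
    l.countP p = (Finset.univ.filter fun i : Fin l.length => p (l.get i)).card := by
  have h1 : (l : Multiset α) = (Finset.univ : Finset (Fin l.length)).val.map l.get := by
    rw [Fin.univ_val_map, List.ofFn_get]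
  rw [← Multiset.coe_countP, h1, Multiset.countP_map]
  rfl

variable {G : Graph}

/-- The chosen edge over a pair. -/
private noncomputable def pick (G : Graph) (s : Sym2 (Fin G.n)) (h : ∃ i, G.ends i = s) :
    Fin G.m := h.choose

private theorem ends_pick {s : Sym2 (Fin G.n)} (h : ∃ i, G.ends i = s) :
    G.ends (pick G s h) = s := h.choose_spec

private theorem pick_inj {s s' : Sym2 (Fin G.n)} (h : ∃ i, G.ends i = s)
    (h' : ∃ i, G.ends i = s') (he : pick G s h = pick G s' h') : s = s' := by
  rw [← ends_pick h, he, ends_pick h']

theorem simple_of_multi (G : Graph) (h : G.IsPfaffian) : MP_0c183c_co.IsPfaffian G.simple := by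
  classical
  obtain ⟨D, hD⟩ := h
  have hex : ∀ {u v : Fin G.n}, G.simple.Adj u v → ∃ i, G.ends i = s(u, v) := fun h => h.2
  refine ⟨⟨fun u v => ∃ h : ∃ i, G.ends i = s(u, v), D.tail (pick G s(u, v) h) = u, ?_⟩, ?_⟩
  · intro u v huv
    have h1 := hex huv
    have h2 := hex huv.symm
    have hne : u ≠ v := huv.1
    have h3 : pick G s(u, v) h1 = pick G s(v, u) h2 := by
      congr 1
      exact Sym2.eq_swap
    have h4 : D.tail (pick G s(u, v) h1) = u ∨ D.tail (pick G s(u, v) h1) = v := by
      have := D.tail_mem (pick G s(u, v) h1)
      rw [ends_pick h1] at this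
      exact Sym2.mem_iff.1 this
    constructor
    · rintro ⟨_, h5⟩ ⟨_, h6⟩
      rw [← h3] at h6
      exact hne (h5.symm.trans h6)
    · intro h5
      rcases h4 with h4 | h4
      · exact ⟨h1, h4⟩
      · exact (h5 ⟨h2, by rw [← h3]; exact h4⟩).elim
  · intro v0 c hc heven hcen
    have hk3 : 3 ≤ c.length := hc.three_le_length
    have hk4 : 4 ≤ c.length := by
      rcases heven with ⟨r, hr⟩
      omega
    set k := c.length with hk
    have : NeZero k := ⟨by omega⟩
    -- the vertices
    let vv : ZMod k → Fin G.n := fun i => c.getVert i.val
    have hval : ∀ i : ZMod k, i.val < k := fun i => ZMod.val_lt i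
    have hsucc : ∀ i : ZMod k, vv (i + 1) = c.getVert (i.val + 1) := by
      intro i
      have h1 : ((1 : ZMod k)).val = 1 := by
        have : Fact (1 < k) := ⟨by omega⟩
        exact ZMod.val_one k
      by_cases hi : i.val + 1 < k
      · have : (i + 1).val = i.val + 1 := by
          rw [ZMod.val_add_of_lt (by rw [h1]; exact hi), h1]
        simp only [vv, this]
      · have h2 : i.val + 1 = k := by have := hval i; omega
        have h3 : i + 1 = 0 := by
          have h4 : ((i.val + 1 : ℕ) : ZMod k) = 0 := by
            rw [h2]; exact ZMod.natCast_self k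
          rw [Nat.cast_add, ZMod.natCast_zmod_val, Nat.cast_one] at h4
          exact h4
        simp only [vv, h3, ZMod.val_zero, h2]
        rw [hk, Walk.getVert_length, Walk.getVert_zero]
    have hadj : ∀ i : ZMod k, G.simple.Adj (vv i) (vv (i + 1)) := by
      intro i
      rw [hsucc]
      exact c.adj_getVert_succ (hval i)
    have hvinj : Function.Injective vv := by
      intro i j hij
      have h1 := hc.getVert_injOn' (x₁ := i.val) (x₂ := j.val)
        (by have := hval i; simp only [Set.mem_ofPred_eq]; omega)
        (by have := hval j; simp only [Set.mem_ofPred_eq]; omega) hij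
      exact ZMod.val_injective k h1
    have htwo : (2 : ZMod k) ≠ 0 := by
      intro h
      have : ((2 : ℕ) : ZMod k) = 0 := by exact_mod_cast h
      rw [ZMod.natCast_eq_zero_iff] at this
      have := Nat.le_of_dvd (by norm_num) this
      omega
    let C : G.Cycle k :=
      { v := vv
        e := fun i => pick G s(vv i, vv (i + 1)) (hex (hadj i))
        v_inj := hvinj
        e_inj := by
          intro i j hij
          have h1 := pick_inj _ _ hij
          rw [Sym2.eq_iff] at h1
          rcases h1 with ⟨h1, -⟩ | ⟨h1, h2⟩
          · exact hvinj h1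
          · exfalso
            have h3 := hvinj h1
            have h4 := hvinj h2
            apply htwo
            rw [h3] at h4
            have : j + (1 + 1) = j + 0 := by rw [← add_assoc, h4, add_zero]
            have := add_left_cancel this
            rw [one_add_one_eq_two] at this
            exact this
        joins := fun i => ends_pick _ }
    have hrange : ∀ u, u ∈ Set.range C.v ↔ u ∈ c.support := by
      intro u
      constructor
      · rintro ⟨i, rfl⟩
        exact c.getVert_mem_support _
      · intro hu
        obtain ⟨i, hi, hik⟩ := Walk.mem_support_iff_exists_getVert.1 hu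
        rcases Nat.lt_or_ge i k with hlt | hge
        · refine ⟨(i : ZMod k), ?_⟩
          change c.getVert ((i : ZMod k)).val = u
          rw [ZMod.val_natCast_of_lt hlt]
          exact hi
        · refine ⟨0, ?_⟩
          change c.getVert ((0 : ZMod k)).val = u
          have : i = c.length := le_antisymm hik hge
          rw [ZMod.val_zero, Walk.getVert_zero, ← hi, this, Walk.getVert_length]
    have hC : C.Central := by
      obtain ⟨M, hM, hMv⟩ := hcen
      have hMadj : ∀ {u v}, M.Adj u v → G.simple.Adj u v := fun h => M.adj_sub h
      refine ⟨{i | ∃ u v, ∃ h : M.Adj u v, i = pick G s(u, v) (hex (hMadj h))}, ?_, ?_⟩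
      · rintro i ⟨u, v, huv, rfl⟩
        rw [ends_pick]
        refine ⟨fun hd => (hMadj huv).1 (Sym2.mk_isDiag_iff.1 hd), ?_⟩
        intro w hw
        rw [hrange]
        have hwM : w ∈ M.verts := by
          rcases Sym2.mem_iff.1 hw with rfl | rfl
          · exact huv.fst_mem
          · exact huv.snd_mem
        rw [hMv] at hwM
        exact hwM
      · intro u hu
        rw [hrange] at hu
        have huM : u ∈ M.verts := by rw [hMv]; exact hu
        obtain ⟨w, hw, huniq⟩ := hM huM
        refine ⟨pick G s(u, w) (hex (hMadj hw)), ⟨⟨u, w, hw, rfl⟩, ?_⟩, ?_⟩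
        · rw [ends_pick]; exact Sym2.mem_mk_left u w
        · rintro i ⟨⟨a, b, hab, rfl⟩, hui⟩
          rw [ends_pick] at hui
          rcases Sym2.mem_iff.1 hui with rfl | rfl
          · have := huniq b hab
            subst this
            rfl
          · have := huniq a hab.symm
            subst this
            congr 1
            exact Sym2.eq_swap
    have hodd := hD k C heven hC
    -- counting
    have hcount : (c.darts.countP fun d => ∃ h : ∃ i, G.ends i = s(d.fst, d.snd),
        D.tail (pick G s(d.fst, d.snd) h) = d.fst) = (D.agreeing C).ncard := by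
      rw [countP_eq_card, Set.ncard_eq_toFinset_card']
      refine Finset.card_bij (fun (i : Fin c.darts.length) _ => ((i : ℕ) : ZMod k)) ?_ ?_ ?_
      · intro i hi
        have hik : (i : ℕ) < k := i.2.trans_eq (Walk.length_darts c)
        rw [Finset.mem_filter] at hi
        obtain ⟨-, h1, h2⟩ := hi
        rw [Set.mem_toFinset]
        change D.tail (pick G s(vv (i : ℕ), vv ((i : ℕ) + 1)) _) = vv (i : ℕ)
        have e1 : vv ((i : ℕ) : ZMod k) = (c.darts.get i).fst := by
          change c.getVert (((i : ℕ) : ZMod k)).val = _
          rw [ZMod.val_natCast_of_lt hik, List.get_eq_getElem, Walk.darts_getElem_eq_getVert]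
        have e2 : vv (((i : ℕ) : ZMod k) + 1) = (c.darts.get i).snd := by
          rw [hsucc, ZMod.val_natCast_of_lt hik, List.get_eq_getElem,
            Walk.darts_getElem_eq_getVert]
        have e3 : ∀ (a b : Fin G.n) (h : ∃ i, G.ends i = s(a, b)), a = (c.darts.get i).fst →
            b = (c.darts.get i).snd → D.tail (pick G s(a, b) h) = a := by
          rintro a b h rfl rfl
          exact h2
        exact e3 _ _ _ e1 e2
      · intro i _ j _ hij
        have hik : (i : ℕ) < k := i.2.trans_eq (Walk.length_darts c)
        have hjk : (j : ℕ) < k := j.2.trans_eq (Walk.length_darts c)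
        have := congrArg ZMod.val hij
        rw [ZMod.val_natCast_of_lt hik, ZMod.val_natCast_of_lt hjk] at this
        exact Fin.ext this
      · intro j hj
        rw [Set.mem_toFinset] at hj
        have hjl : j.val < c.darts.length := by
          rw [Walk.length_darts]
          exact hval j
        have e1 : vv j = (c.darts.get ⟨j.val, hjl⟩).fst := by
          change c.getVert j.val = _
          rw [List.get_eq_getElem, Walk.darts_getElem_eq_getVert]
        have e2 : vv (j + 1) = (c.darts.get ⟨j.val, hjl⟩).snd := by
          rw [hsucc, List.get_eq_getElem, Walk.darts_getElem_eq_getVert]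
        refine ⟨⟨j.val, hjl⟩, ?_, ?_⟩
        · rw [Finset.mem_filter]
          refine ⟨Finset.mem_univ _, ?_⟩
          have h1 : D.tail (pick G s(vv j, vv (j + 1)) (hex (hadj j))) = vv j := hj
          have e3 : ∀ (a b : Fin G.n) (h : ∃ i, G.ends i = s(a, b)), vv j = a → vv (j + 1) = b →
              D.tail (pick G s(a, b) h) = a := by
            rintro a b h rfl rfl
            exact h1
          have hh : ∃ i, G.ends i = s((c.darts.get ⟨j.val, hjl⟩).fst,
              (c.darts.get ⟨j.val, hjl⟩).snd) := by
            rw [← e1, ← e2]; exact hex (hadj j)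
          exact ⟨hh, e3 _ _ hh e1 e2⟩
        · exact ZMod.natCast_zmod_val j
    rw [← hcount] at hodd
    have e5 : ∀ (p : G.simple.Dart → Prop) (i1 i2 : DecidablePred p),
        c.darts.countP (fun d => @decide (p d) (i1 d)) =
          c.darts.countP (fun d => @decide (p d) (i2 d)) := by
      intro p i1 i2
      congr 1
      funext d
      by_cases h : p d <;> simp [h]
    exact (congrArg Odd (e5 _ _ _)).mp hodd

end Pool.Agent.Lib.MP_0c183c_M
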