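import Pool.Agent.Lib.MP_0c183c_M.OfSimple
import Pool.Agent.Lib.MP_0c183c_M.Simple
import Pool.Agent.Lib.MP_0c183c_M.Machine
import Pool.Agent.Lib.MP_0c183c_h75B.BO
import Pool.Agent.Lib.MP_0c183c_P9A.Final
import Pool.Agent.Lib.MP_0c183c_co_P9S.NoWorld

/-! # The machine for graphs with loops and parallel edges -/

set_option autoImplicit false

namespace Pool.Agent.Lib.MP_0c183c_M

open Turing Pool.Agent.Lib.PolyTree

theorem Graph.isPfaffian_iff (G : Graph) :
    G.IsPfaffian ↔ MP_0c183c_co.IsPfaffian G.simple :=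
  ⟨simple_of_multi G, G.multi_of_simple⟩

open Classical in
/-- **Pfaffian graphs are recognised in polynomial time.** -/
theorem machine :
    ∃ M : TM2ComputableInPolyTime Graph.encode (fun b : Bool => [b])
        (fun G : Graph => decide G.IsPfaffian),
      ∀ k, Finite (M.tm.Γ k) := by
  obtain ⟨c, s₀, hBO⟩ := MP_0c183c_h75B.bok_of_no_world
    MP_0c183c_co_P9Star.no_world MP_0c183c_P9A.KK
  have h := machine_of_simple (fun I => MP_0c183c_co.IsPfaffian I.G)
    (MP_0c183c_P9A.accept (c + 1) s₀) (by fun_prop) (MP_0c183c_P9A.accept_iff hBO)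
  have e : (fun G : Graph => decide (MP_0c183c_co.IsPfaffian G.simple)) =
      fun G : Graph => decide G.IsPfaffian := by
    funext G
    rw [Bool.eq_iff_iff, decide_eq_true_iff, decide_eq_true_iff, G.isPfaffian_iff]
  rw [← e]
  exact h

end Pool.Agent.Lib.MP_0c183c_M
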