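import Pool.Agent.Lib.MP_0c183c_M.SimpleDef
import Pool.Agent.Lib.MP_0c183c_co.Defs

/-! # A Pfaffian orientation of the underlying simple graph gives one of the graph -/

set_option autoImplicit false

namespace Pool.Agent.Lib.MP_0c183c_M

open SimpleGraph

/-- The walk through `w 0, w 1, …, w k`. -/
def walkOf {V : Type} {S : SimpleGraph V} : (k : ℕ) → (w : ℕ → V) →
    (∀ i < k, S.Adj (w i) (w (i + 1))) → S.Walk (w 0) (w k)
  | 0, _, _ => Walk.nil
  | k + 1, w, h => Walk.cons (h 0 (Nat.succ_pos k))
      (walkOf k (fun i => w (i + 1)) fun i hi => h (i + 1) (Nat.succ_lt_succ hi))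

theorem length_walkOf {V : Type} {S : SimpleGraph V} : ∀ (k : ℕ) (w : ℕ → V)
    (h : ∀ i < k, S.Adj (w i) (w (i + 1))), (walkOf k w h).length = k
  | 0, _, _ => rfl
  | k + 1, w, h => by
    unfold walkOf
    rw [Walk.length_cons, length_walkOf k]

theorem support_walkOf {V : Type} {S : SimpleGraph V} : ∀ (k : ℕ) (w : ℕ → V)
    (h : ∀ i < k, S.Adj (w i) (w (i + 1))), (walkOf k w h).support = (List.range (k + 1)).map w
  | 0, _, _ => rfl
  | k + 1, w, h => by
    unfold walkOf
    rw [Walk.support_cons, support_walkOf k, List.range_succ_eq_map (n := k + 1), List.map_cons,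
      List.map_map]
    rfl

theorem darts_walkOf {V : Type} {S : SimpleGraph V} : ∀ (k : ℕ) (w : ℕ → V)
    (h : ∀ i < k, S.Adj (w i) (w (i + 1))),
    (walkOf k w h).darts.map (fun d => (d.fst, d.snd)) =
      (List.range k).map (fun i => (w i, w (i + 1)))
  | 0, _, _ => rfl
  | k + 1, w, h => by
    unfold walkOf
    rw [Walk.darts_cons, List.map_cons, darts_walkOf k, List.range_succ_eq_map, List.map_cons,
      List.map_map]
    rfl

namespace Graph

variable {G : Graph}

/-- Length at least three. -/
theorem cycle_walk {k : ℕ} (hk : 3 ≤ k) (C : G.Cycle k) :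
    ∃ c : G.simple.Walk (C.v 0) (C.v 0), c.IsCycle ∧ c.length = k ∧
      (∀ u, u ∈ c.support ↔ u ∈ Set.range C.v) ∧
      c.darts.map (fun d => (d.fst, d.snd)) =
        (List.range k).map (fun i : ℕ => (C.v (i : ZMod k), C.v ((i : ZMod k) + 1))) := by
  have : NeZero k := ⟨by omega⟩
  set w : ℕ → Fin G.n := fun i => C.v (i : ZMod k) with hw
  have hadj : ∀ i < k, G.simple.Adj (w i) (w (i + 1)) := by
    intro i _
    refine ⟨?_, C.e i, ?_⟩
    · intro h
      have h1 := C.v_inj h
      rw [Nat.cast_add, Nat.cast_one] at h1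
      have h2 : (1 : ZMod k) = 0 := by
        have := sub_eq_zero.2 h1
        rwa [sub_add_cancel_left, neg_eq_zero] at this
      have : Fact (1 < k) := ⟨by omega⟩
      exact one_ne_zero h2
    · rw [C.joins]
      simp only [hw, Nat.cast_add, Nat.cast_one]
  have h0 : w 0 = C.v 0 := by simp only [hw, Nat.cast_zero]
  have hwk : w k = C.v 0 := by
    simp only [hw, ZMod.natCast_self]
  have hinj : ∀ i j, i < k → j < k → w i = w j → i = j := by
    intro i j hi hj h
    have h1 := C.v_inj h
    rw [ZMod.natCast_eq_natCast_iff] at h1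
    exact Nat.ModEq.eq_of_lt_of_lt h1 hi hj
  have hper : ∀ i, w (i + k) = w i := by
    intro i
    simp only [hw, Nat.cast_add, ZMod.natCast_self, add_zero]
  refine ⟨(walkOf k w hadj).copy h0 hwk, ?_, ?_, ?_, ?_⟩
  · rw [Walk.isCycle_iff_isPath_tail_and_le_length]
    have hnil : ¬ ((walkOf k w hadj).copy h0 hwk).Nil := by
      rw [← Walk.length_eq_zero_iff, Walk.length_copy, length_walkOf]
      omega
    refine ⟨Walk.IsPath.mk' ?_, ?_⟩
    · rw [Walk.support_tail_of_not_nil _ hnil, Walk.support_copy, support_walkOf,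
        List.range_succ_eq_map, List.map_cons, List.tail_cons, List.map_map]
      refine (List.nodup_map_iff_inj_on List.nodup_range).2 ?_
      intro i hi j hj h
      rw [List.mem_range] at hi hj
      simp only [Function.comp_apply, Nat.succ_eq_add_one] at h
      by_cases hi1 : i + 1 = k <;> by_cases hj1 : j + 1 = k
      · omega
      · rw [hi1, ← zero_add k, hper] at h
        have := hinj 0 (j + 1) (by omega) (by omega) h
        omega
      · rw [hj1, ← zero_add k, hper] at h
        have := hinj (i + 1) 0 (by omega) (by omega) h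
        omega
      · have := hinj (i + 1) (j + 1) (by omega) (by omega) h
        omega
    · rw [Walk.length_copy, length_walkOf]
      exact hk
  · rw [Walk.length_copy, length_walkOf]
  · intro u
    rw [Walk.support_copy, support_walkOf, List.mem_map]
    constructor
    · rintro ⟨i, _, rfl⟩
      exact ⟨_, rfl⟩
    · rintro ⟨z, rfl⟩
      refine ⟨z.val, List.mem_range.2 (by have := z.val_lt; omega), ?_⟩
      simp only [hw, ZMod.natCast_zmod_val]
  · rw [Walk.darts_copy, darts_walkOf]
    simp only [hw, Nat.cast_add, Nat.cast_one]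

theorem range_countP {k : ℕ} [NeZero k] (P : ZMod k → Prop) [DecidablePred P] :
    (List.range k).countP (fun i : ℕ => decide (P (i : ZMod k))) = {z | P z}.ncard := by
  rw [Set.ncard_eq_toFinset_card', Set.toFinset_ofPred]
  have h1 : (List.range k).countP (fun i : ℕ => decide (P (i : ZMod k))) =
      ((Finset.range k).filter (fun i : ℕ => P (i : ZMod k))).card := by
    rw [List.countP_eq_length_filter]
    rfl
  rw [h1]
  refine Finset.card_bij (fun i _ => (i : ZMod k)) ?_ ?_ ?_
  · intro i hi
    rw [Finset.mem_filter] at hi ⊢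
    exact ⟨Finset.mem_univ _, hi.2⟩
  · intro i hi j hj h
    rw [Finset.mem_filter, Finset.mem_range] at hi hj
    rw [ZMod.natCast_eq_natCast_iff] at h
    exact Nat.ModEq.eq_of_lt_of_lt h hi.1 hj.1
  · intro z hz
    rw [Finset.mem_filter] at hz
    refine ⟨z.val, ?_, ZMod.natCast_zmod_val z⟩
    rw [Finset.mem_filter, Finset.mem_range, ZMod.natCast_zmod_val]
    exact ⟨z.val_lt, hz.2⟩

open Classical in
theorem multi_of_simple (G : Graph) (h : MP_0c183c_co.IsPfaffian G.simple) : G.IsPfaffian := by
  obtain ⟨D, hD⟩ := h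
  -- the tail of an edge
  have htail : ∀ i : Fin G.m, ∃ t ∈ G.ends i, ∀ u v, G.ends i = s(u, v) → u ≠ v →
      (t = u ↔ D.dir u v) := by
    intro i
    obtain ⟨a, b, hab⟩ : ∃ a b, G.ends i = s(a, b) := by
      induction' h : G.ends i using Sym2.ind with a b
      exact ⟨a, b, rfl⟩
    by_cases hne : a = b
    · subst hne
      refine ⟨a, by rw [hab]; simp, ?_⟩
      intro u v huv hne
      rw [hab, Sym2.eq_iff] at huv
      rcases huv with ⟨rfl, rfl⟩ | ⟨rfl, rfl⟩ <;> exact absurd rfl hne
    · have hadj : G.simple.Adj a b := ⟨hne, i, hab⟩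
      by_cases hd : D.dir a b
      · refine ⟨a, by rw [hab]; simp, ?_⟩
        intro u v huv _
        rw [hab, Sym2.eq_iff] at huv
        rcases huv with ⟨rfl, rfl⟩ | ⟨rfl, rfl⟩
        · exact iff_of_true rfl hd
        · exact iff_of_false hne ((D.dir_iff _ _ hadj).1 hd)
      · refine ⟨b, by rw [hab]; simp, ?_⟩
        have hd' : D.dir b a := by
          by_contra h'
          exact hd ((D.dir_iff _ _ hadj).2 h')
        intro u v huv _
        rw [hab, Sym2.eq_iff] at huv
        rcases huv with ⟨rfl, rfl⟩ | ⟨rfl, rfl⟩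
        · exact iff_of_false (Ne.symm hne) hd
        · exact iff_of_true rfl hd'
  choose t ht1 ht2 using htail
  refine ⟨⟨t, ht1⟩, ?_⟩
  intro k C hk hC
  rcases Nat.eq_zero_or_pos k with rfl | hpos
  · have h1 : Finite (ZMod 0) := Finite.of_injective C.v C.v_inj
    have h2 : Infinite (ZMod 0) := inferInstanceAs (Infinite ℤ)
    exact absurd h1 (not_finite_iff_infinite.2 h2)
  have : NeZero k := ⟨hpos.ne'⟩
  obtain ⟨r, hr⟩ := hk
  by_cases hk2 : k = 2
  · subst hk2
    have hne : C.v 0 ≠ C.v 1 := fun h => by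
      have := C.v_inj h
      exact absurd this (by decide)
    have h0 := C.joins 0
    have h1 := C.joins 1
    rw [zero_add] at h0
    rw [show (1 : ZMod 2) + 1 = 0 from rfl] at h1
    have e0 := ht2 (C.e 0) _ _ h0 hne
    have e1 := ht2 (C.e 1) _ _ h1 hne.symm
    have hadj : G.simple.Adj (C.v 0) (C.v 1) := ⟨hne, _, h0⟩
    have hd := D.dir_iff _ _ hadj
    have hset : (Orientation.agreeing (⟨t, ht1⟩ : G.Orientation) C) =
        if D.dir (C.v 0) (C.v 1) then {0} else {1} := by
      ext z
      change t (C.e z) = C.v z ↔ _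
      have h01 : (0 : ZMod 2) ≠ 1 := zero_ne_one
      rcases (show z = 0 ∨ z = 1 by revert z; decide) with rfl | rfl
      · rw [e0]
        split_ifs with h
        · exact iff_of_true h rfl
        · exact iff_of_false h h01
      · rw [e1]
        split_ifs with h
        · exact iff_of_false (hd.1 h) h01.symm
        · exact iff_of_true (by by_contra h'; exact h (hd.2 h')) rfl
    rw [hset]
    split_ifs <;> simp
  · have hk3 : 3 ≤ k := by omega
    obtain ⟨c, hc1, hc2, hc3, hc4⟩ := cycle_walk hk3 C
    have hcen : MP_0c183c_co.Central G.simple c := by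
      obtain ⟨M, hM1, hM2⟩ := hC
      refine ⟨{ verts := {u | u ∉ c.support}
                Adj := fun u v => ∃ i ∈ M, G.ends i = s(u, v)
                adj_sub := ?_
                edge_vert := ?_
                symm := ⟨?_⟩ }, ?_, rfl⟩
      · rintro u v ⟨i, hi, hiuv⟩
        refine ⟨?_, i, hiuv⟩
        rintro rfl
        exact (hM1 i hi).1 (by rw [hiuv]; simp)
      · rintro u v ⟨i, hi, hiuv⟩
        change u ∉ c.support
        rw [hc3]
        exact (hM1 i hi).2 u (by rw [hiuv]; simp)
      · rintro u v ⟨i, hi, hiuv⟩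
        exact ⟨i, hi, by rw [hiuv, Sym2.eq_swap]⟩
      · intro v hv
        change v ∉ c.support at hv
        rw [hc3] at hv
        obtain ⟨i, ⟨hi, hvi⟩, huni⟩ := hM2 v hv
        obtain ⟨w, hw⟩ := hvi
        refine ⟨w, ⟨i, hi, hw⟩, ?_⟩
        rintro w' ⟨i', hi', hw'⟩
        have h1 : i' = i := huni i' ⟨hi', by rw [hw']; simp⟩
        subst h1
        rw [hw, Sym2.eq_iff] at hw'
        rcases hw' with ⟨_, rfl⟩ | ⟨rfl, rfl⟩ <;> rfl
    have hodd := hD _ c hc1 (by rw [hc2]; exact ⟨r, hr⟩) hcen
    have h1 : (c.darts.countP fun d => decide (D.dir d.fst d.snd)) =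
        (c.darts.map (fun d => (d.fst, d.snd))).countP (fun p => decide (D.dir p.1 p.2)) := by
      rw [List.countP_map]
      rfl
    rw [h1, hc4, List.countP_map] at hodd
    have h2 : ∀ z : ZMod k, t (C.e z) = C.v z ↔ D.dir (C.v z) (C.v (z + 1)) := by
      intro z
      refine ht2 _ _ _ (C.joins z) fun h => ?_
      have h3 := C.v_inj h
      have h2 : (1 : ZMod k) = 0 := by
        have := sub_eq_zero.2 h3
        rwa [sub_add_cancel_left, neg_eq_zero] at this
      have : Fact (1 < k) := ⟨by omega⟩
      exact one_ne_zero h2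
    have h3 := range_countP (k := k) (fun z => t (C.e z) = C.v z)
    have h4 : (Orientation.agreeing (⟨t, ht1⟩ : G.Orientation) C) = {z | t (C.e z) = C.v z} := rfl
    rw [h4, ← h3]
    convert hodd using 2
    funext i
    simp only [Function.comp_apply, h2]

end Graph

end Pool.Agent.Lib.MP_0c183c_M
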