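import Pool.Agent.Lib.MP_0c183c_M.Defs

/-! # The underlying simple graph -/

set_option autoImplicit false

namespace Pool.Agent.Lib.MP_0c183c_M

namespace Graph

variable (G : Graph)

/-- The underlying simple graph. -/
def simple : SimpleGraph (Fin G.n) where
  Adj u v := u ≠ v ∧ ∃ i, G.ends i = s(u, v)
  symm := ⟨fun u v h => ⟨h.1.symm, h.2.imp fun i hi => by rw [hi, Sym2.eq_swap]⟩⟩
  loopless := ⟨fun u h => h.1 rfl⟩

end Graph

end Pool.Agent.Lib.MP_0c183c_M
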